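import Pool.Agent.H58.BL.Exc2
import Pool.Agent.H58.AG.Lower
import Pool.Agent.H642.BL.Blk
import Pool.Agent.H864.BL.Net

/-!
# MP_b5f63d_co: kissing configurations and spherical codes in the orbits of groups

Let `G` be a group of linear isometries of `ℝⁿ` all of whose irreducible constituents have dimension at
most `D`. An orbit of `G` lies on a product of spheres of dimensions less than `D` (with arbitrary
radii). We prove a linear programming bound for such products: the exponent (per dimension) is given,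
for each `d ≤ D`, by a variational problem on the degrees of the spherical harmonics of `ℝᵈ`. For
kissing configurations the exponents are `0.3652` (`D = 2`, e.g. commutative groups), `0.3777`
(`D = 4`), `0.388` (`D = 8`), `0.3948` (`D = 16`), `0.3957` (`D = 20`), below the best bound `0.3966`
for all kissing configurations (`0.401` in the literature). The bounds hold more generally for codes in
small neighbourhoods of few orbits, and the group may act in any way on an invariant subspace of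
dimension at most `η n`. Large constituents are allowed if the group acts on them
with a small quotient by the centre; this gives the exponent `0.3948` for all nilpotent groups of class
at most 2 (e.g. all extraspecial groups and their products), where the quotient has at most
`(dim V)²` elements (orthogonality of the traces), and irreducible spaces of real type have dimension
`2^r`.

Proof. The test space is spanned by the products of the spherical harmonics of degrees
`(k_1, ..., k_m)` in the typical set `B` of the product of the measures `q`. In the weighted graph of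
the multiplication operator `∑ p_j t_j` restricted to `B`, the largest eigenvalue is at least
`2 ∑ √(w q q') - o(1) > s`; its Perron vector gives a positive definite function which shows that the
number of points is at most a constant times the dimension of the test space.

Pieces proved by other seats: helper25 (weighted Perron vector), helper630 (addition theorem),
helper695 (decomposition), helper686, helper871, helper588, helper79 (structure of nilpotent groups of
class 2), helper277, helper864, helper548 (coordinates), helper642 (products of spheres), helper930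
(numerical inequalities), helper864 (nets; also helper974, helper440, helper642).
-/

set_option autoImplicit false

open Filter Module Finset

namespace Pool.Agent.Results.MP_b5f63d_co.GroupOrbits

/-- `ℝⁿ` -/
abbrev E (n : ℕ) : Type := EuclideanSpace ℝ (Fin n)

/-- linear isometries of `ℝⁿ` -/
abbrev Iso (n : ℕ) : Type := E n ≃ₗᵢ[ℝ] E n

/-- `X` is a set of unit vectors of `ℝⁿ` with mutual inner products at most `s` (`s = 1 / 2`:
a kissing configuration) -/
def IsCode (n : ℕ) (s : ℝ) (X : Finset (E n)) : Prop :=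
  (∀ x ∈ X, ‖x‖ = 1) ∧ ∀ x ∈ X, ∀ y ∈ X, x ≠ y → inner ℝ x y ≤ s

/-- `W` is a minimal nonzero invariant subspace (irreducible constituent) for the group `G` -/
def Irred {n : ℕ} (G : Subgroup (Iso n)) (W : Submodule ℝ (E n)) : Prop :=
  (∀ g ∈ G, ∀ x ∈ W, g x ∈ W) ∧ W ≠ ⊥ ∧
  ∀ W' ≤ W, (∀ g ∈ G, ∀ x ∈ W', g x ∈ W') → W' ≠ ⊥ → W' = W

/-- outside an invariant subspace `U` of dimension at most `η n`, all irreducible constituents have
dimension at most `D` (`η = 0`: all irreducible constituents) -/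
def Small (η : ℝ) (D : ℕ) {n : ℕ} (G : Subgroup (Iso n)) : Prop := ∃ U : Submodule ℝ (E n),
  (∀ g ∈ G, ∀ x ∈ U, g x ∈ U) ∧ (finrank ℝ U : ℝ) ≤ η * n ∧
  ∀ W, Irred G W → W ≤ Uᗮ → finrank ℝ W ≤ D

/-- the commutators are central: `G` is nilpotent of class at most 2 -/
def ClassTwo {n : ℕ} (G : Subgroup (Iso n)) : Prop :=
  ∀ g ∈ G, ∀ h ∈ G, ∀ k ∈ G, (g * h * g⁻¹ * h⁻¹) * k = k * (g * h * g⁻¹ * h⁻¹)

/-- the group `G` is commutative -/
def IsComm {n : ℕ} (G : Subgroup (Iso n)) : Prop := ∀ g ∈ G, ∀ h ∈ G, g * h = h * g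

/-- the orbit of the point `x₀` -/
def orbit {n : ℕ} (G : Subgroup (Iso n)) (x₀ : E n) : Set (E n) := {x | ∃ g ∈ G, x = g x₀}

/-- `X` is in the `δ`-neighbourhood of `K` orbits (of unit vectors `z i`) of (maybe different) groups
`G i` of the class `𝒢` of groups of linear isometries; `δ = 0`: `X` is covered by these orbits -/
def Near {n : ℕ} (𝒢 : Subgroup (Iso n) → Prop) (δ : ℝ) (K : ℕ) (X : Finset (E n)) : Prop :=
  ∃ (G : Fin K → Subgroup (Iso n)) (z : Fin K → E n), (∀ i, 𝒢 (G i) ∧ ‖z i‖ = 1) ∧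
    ∀ x ∈ X, ∃ i, ∃ y ∈ orbit (G i) (z i), ‖x - y‖ ≤ δ

/-- for large `n` all codes of `ℝⁿ` with inner products at most `s` in the `δ`-neighbourhood of `K`
orbits of groups of the class `𝒢` have at most `K 2 ^ (c n)` points -/
def Bound (𝒢 : ∀ n : ℕ, Subgroup (Iso n) → Prop) (s δ c : ℝ) : Prop :=
  ∀ᶠ n : ℕ in atTop, ∀ X : Finset (E n), IsCode n s X →
    ∀ K : ℕ, Near (𝒢 n) δ K X → (X.card : ℝ) ≤ K * 2 ^ (c * n)

/-- dimension of the space of the harmonic polynomials of degree `k` on `ℝᵈ`: `1, d, ...` -/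
noncomputable def harm (d : ℕ) : ℕ → ℝ
  | 0 => 1
  | 1 => d
  | k + 2 => harm d (k + 1) * (((k + d - 1) * (2 * k + 2 + d)) / ((2 * k + d) * (k + 2)))

/-- squares of the coefficients of the Jacobi matrix of the Gegenbauer polynomials of `ℝᵈ` -/
noncomputable def wt (d k : ℕ) : ℝ :=
  if k = 0 then 1 / d else (k + 1) * (k + d - 2) / ((2 * k + d - 2) * (2 * k + d))

/-- `C` is an admissible exponent per dimension for the sphere of `ℝᵈ` at the angle `s`: for some
probabilities `q_0, ..., q_L`, `2 ∑ √(w(k) q_k q_(k+1)) > s` and `∑ q_k log₂(h(k) / q_k) ≤ C d` -/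
def Admissible (s : ℝ) (d : ℕ) (C : ℝ) : Prop := ∃ (L : ℕ) (q : ℕ → ℝ), (d = 1 → L ≤ 1) ∧
  (∀ k ≤ L, 0 < q k) ∧ ∑ k ∈ range (L + 1), q k = 1 ∧
  s < 2 * ∑ k ∈ range L, √(wt d k * (q k * q (k + 1))) ∧
  ∑ k ∈ range (L + 1), q k * Real.logb 2 (harm d k / q k) ≤ C * d

/-- the elements of `G` which commute with `G` on `V` -/
def centreOn {n : ℕ} (G : Subgroup (Iso n)) (V : Submodule ℝ (E n)) : Set (Iso n) :=
  {g | g ∈ G ∧ ∀ h ∈ G, ∀ v ∈ V, g (h v) = h (g v)}

/-- outside an invariant subspace `U` of dimension at most `η n` (`η = 0`: everywhere), each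
irreducible constituent `V` of `G` has dimension at most `D`, or `G` is covered by at most
`2 ^ (C (dim V - 2))` cosets of the elements of `G` which commute with `G` on `V` -/
def Tame (η : ℝ) (D : ℕ) (C : ℝ) {n : ℕ} (G : Subgroup (Iso n)) : Prop :=
  ∃ U : Submodule ℝ (E n), (∀ g ∈ G, ∀ x ∈ U, g x ∈ U) ∧ (finrank ℝ U : ℝ) ≤ η * n ∧
  ∀ V, Irred G V → V ≤ Uᗮ →
    finrank ℝ V ≤ D ∨ ∃ S : Finset (Iso n), (S.card : ℝ) ≤ 2 ^ (C * ((finrank ℝ V : ℝ) - 2)) ∧
      ∀ g ∈ G, ∃ t ∈ S, t⁻¹ * g ∈ centreOn G V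

/-- the general bound, all angles -/
def General : Prop := ∀ s δ : ℝ, 0 ≤ s → 0 ≤ δ → s + 2 * δ < 1 → ∀ D : ℕ, 2 ≤ D → ∀ C : ℝ, 0 ≤ C →
  (∀ d : ℕ, 1 ≤ d → d ≤ D → Admissible (s + 2 * δ) d C) → ∀ ε : ℝ, 0 < ε →
  ∃ η : ℝ, 0 < η ∧ Bound (fun _ => Tame η D C) s δ (C + ε)

/-- kissing configurations -/
def Kissing : Prop :=
  (∃ η : ℝ, 0 < η ∧ Bound (fun _ => Small η 2) (1 / 2) 0 0.3652) ∧
  (∃ η : ℝ, 0 < η ∧ Bound (fun _ => Small η 4) (1 / 2) 0 0.3777) ∧
  (∃ η : ℝ, 0 < η ∧ Bound (fun _ => Small η 8) (1 / 2) 0 0.388) ∧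
  (∃ η : ℝ, 0 < η ∧ Bound (fun _ => Small η 16) (1 / 2) 0 0.3948) ∧
  (∃ η : ℝ, 0 < η ∧ Bound (fun _ => Small η 20) (1 / 2) 0 0.3957) ∧
  (∃ η : ℝ, 0 < η ∧ Bound (fun _ => Small η 2) (1 / 2) 0.01 0.3891) ∧
  Bound (fun _ => ClassTwo) (1 / 2) 0 0.3948

/-- the points of `X` have the same norms in the blocks of some partition of the coordinates in
blocks of at most `D` coordinates: `X` lies on a product of spheres (of any radii) -/
def OnProduct (D : ℕ) {n : ℕ} (X : Finset (E n)) : Prop := ∃ b : Fin n → Fin n,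
  (∀ j, (univ.filter (fun i => b i = j)).card ≤ D) ∧ ∀ x ∈ X, ∀ y ∈ X, ∀ j,
    ∑ i ∈ univ.filter (fun i => b i = j), x i ^ 2 = ∑ i ∈ univ.filter (fun i => b i = j), y i ^ 2

/-- products of spheres are orbits of groups with small constituents -/
def Products : Prop := ∀ (n D : ℕ) (X : Finset (E n)), OnProduct D X →
  ∃ G : Subgroup (Iso n), Small 0 D G ∧ ∃ z : E n, ↑X ⊆ orbit G z

/-- the irreducible constituents of commutative groups have dimension at most 2 -/
def Comm : Prop := ∀ (n : ℕ) (G : Subgroup (Iso n)), IsComm G → Small 0 2 G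

/-- nilpotent groups of class at most 2 satisfy the condition of the general bound if
`2 log₂ d ≤ C (d - 2)` for all `d > D` -/
def Nilpotent : Prop := ∀ (n D : ℕ) (C : ℝ) (G : Subgroup (Iso n)), ClassTwo G →
  (∀ d : ℕ, D < d → 2 * Real.logb 2 d ≤ C * ((d : ℝ) - 2)) → Tame 0 D C G

/-- large kissing configurations which are full orbits of commutative groups -/
def Lower : Prop := ∀ᶠ n : ℕ in atTop, ∃ X : Finset (E n),
  (∃ G : Subgroup (Iso n), IsComm G ∧ ∃ x₀ : E n, ↑X = orbit G x₀) ∧ IsCode n (1 / 2) X ∧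
    (2 : ℝ) ^ ((0.188 : ℝ) * n) ≤ X.card

/-- the sum over the orbits -/
lemma cover {n : ℕ} {𝒢 : Subgroup (Iso n) → Prop} {s δ N : ℝ} (hs : s + 2 * δ < 1)
    (h : ∀ (Y : Finset (E n)) (G : Subgroup (Iso n)) (z : E n), 𝒢 G → IsCode n (s + 2 * δ) Y →
      (∀ y ∈ Y, ∃ g ∈ G, y = g z) → (Y.card : ℝ) ≤ N) {X : Finset (E n)}
    (hX : IsCode n s X) {K : ℕ} (hK : Near 𝒢 δ K X) : (X.card : ℝ) ≤ K * N := by
  classical
  obtain ⟨G, z, hG, hcov⟩ := hK
  choose i f hf hd using hcov
  have hnorm : ∀ x hx, ‖f x hx‖ = 1 := by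
    intro x hx
    obtain ⟨g, _, hg⟩ := hf x hx
    rw [hg, LinearIsometryEquiv.norm_map, (hG _).2]
  have hin : ∀ x hx y hy, x ≠ y → inner ℝ (f x hx) (f y hy) ≤ s + 2 * δ := by
    intro x hx y hy hxy
    have h1 := hX.2 x hx y hy hxy
    have h2 : inner ℝ (f x hx) (f y hy) = (inner ℝ x y + inner ℝ (f x hx - x) y +
        inner ℝ (f x hx) (f y hy - y) : ℝ) := by
      rw [inner_sub_left, inner_sub_right]
      ring
    have h3 : inner ℝ (f x hx - x) y ≤ δ := by
      refine (real_inner_le_norm _ _).trans ?_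
      rw [hX.1 y hy, mul_one, norm_sub_rev]
      exact hd x hx
    have h4 : inner ℝ (f x hx) (f y hy - y) ≤ δ := by
      refine (real_inner_le_norm _ _).trans ?_
      rw [hnorm x hx, one_mul, norm_sub_rev]
      exact hd y hy
    rw [h2]
    linarith
  set F : {x // x ∈ X} → E n := fun x => f x.1 x.2 with hF
  have hinj : Function.Injective F := by
    intro x y hxy
    by_contra hne
    have h1 := hin x.1 x.2 y.1 y.2 (fun h => hne (Subtype.ext h))
    have h2 : f x.1 x.2 = f y.1 y.2 := hxy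
    rw [h2, real_inner_self_eq_norm_sq, hnorm, one_pow] at h1
    linarith
  have e2 := Finset.card_eq_sum_card_fiberwise (f := fun x : {x // x ∈ X} => i x.1 x.2)
    (s := (univ : Finset {x // x ∈ X})) (t := (univ : Finset (Fin K))) (fun _ _ => mem_univ _)
  rw [card_univ, Fintype.card_coe] at e2
  rw [e2]
  push_cast
  calc ∑ k : Fin K, (((univ : Finset {x // x ∈ X}).filter (fun x => i x.1 x.2 = k)).card : ℝ) ≤
      ∑ _k : Fin K, N := by
        apply Finset.sum_le_sum
        intro k _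
        rw [← Finset.card_image_of_injective _ hinj]
        apply h _ (G k) (z k) (hG k).1
        · constructor
          · intro y hy
            obtain ⟨x, _, rfl⟩ := Finset.mem_image.1 hy
            exact hnorm _ _
          · intro y hy y' hy' hne
            obtain ⟨x, _, rfl⟩ := Finset.mem_image.1 hy
            obtain ⟨x', _, rfl⟩ := Finset.mem_image.1 hy'
            apply hin
            intro h
            exact hne (congrArg F (Subtype.ext h))
        · intro y hy
          obtain ⟨x, hx, rfl⟩ := Finset.mem_image.1 hy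
          have hx2 := (Finset.mem_filter.1 hx).2
          obtain ⟨g, hg1, hg2⟩ := hf x.1 x.2
          rw [← hx2]
          exact ⟨g, hg1, hg2⟩
    _ = K * N := by rw [Finset.sum_const, Finset.card_univ, Fintype.card_fin, nsmul_eq_mul]

/-- small constituents -/
lemma small {D : ℕ} {c c' : ℝ} (hD : D ≤ 20) (hc0 : 0 ≤ c)
    (hc : ∀ d : ℕ, 1 ≤ d → d ≤ D → H58.BL.Cd d ≤ c * d)
    (hcc : c < c') : ∃ η : ℝ, 0 < η ∧ Bound (fun _ => Small η D) (1 / 2) 0 c' := by
  obtain ⟨η, hη, h⟩ := H58.BL.small_exc H864.BL.t_net hD hc0 hc hcc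
  refine ⟨η, hη, ?_⟩
  filter_upwards [h] with n hn X hX K hK
  refine cover (by norm_num) (fun Y G z hG hY hYo => ?_) hX hK
  rw [mul_zero, add_zero] at hY
  obtain ⟨U, hU, hUd, hW⟩ := hG
  exact hn G U hU hUd hW Y z hYo hY.1 hY.2

/-- no exceptional subspace -/
lemma bot_ok {n : ℕ} (G : Subgroup (Iso n)) :
    (∀ g ∈ G, ∀ x ∈ (⊥ : Submodule ℝ (E n)), g x ∈ (⊥ : Submodule ℝ (E n))) ∧
    (finrank ℝ (⊥ : Submodule ℝ (E n)) : ℝ) ≤ 0 * n := by
  constructor
  · intro g _ x hx
    rw [Submodule.mem_bot] at hx ⊢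
    rw [hx, map_zero]
  · rw [finrank_bot]
    simp

lemma harm_eq (d k : ℕ) : harm d k = H58.BL.hd d k := by
  induction k using Nat.twoStepInduction with
  | zero => rfl
  | one => rfl
  | more k _ ih => simp only [harm, H58.BL.hd, ih]

lemma wt_eq {d : ℕ} (k : ℕ) : wt d k = H58.BL.aN d k * H58.BL.bN d (k + 1) := by
  cases k with
  | zero => simp [wt, H58.BL.aN, H58.BL.bN]
  | succ k =>
    rw [wt, if_neg (Nat.succ_ne_zero k)]
    simp only [H58.BL.aN, H58.BL.bN]
    rw [div_mul_div_comm]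
    push_cast
    congr 1 <;> ring

lemma adm {s : ℝ} {d : ℕ} {C : ℝ} (h : Admissible s d C) : H58.BL.Adm s d C := by
  obtain ⟨L, q, h1, h2, h3, h4, h5⟩ := h
  refine ⟨L, q, h1, h2, h3, ?_, ?_⟩
  · refine h4.trans_le (le_of_eq ?_)
    congr 1
    apply sum_congr rfl
    intro k _
    rw [wt_eq, mul_comm]
  · refine le_trans (le_of_eq ?_) h5
    apply sum_congr rfl
    intro k _
    rw [harm_eq]

lemma products : Products := by
  rintro n D X ⟨b, hb, hX⟩
  obtain ⟨G, h1, h2⟩ := H642.BL.t_blk n D b hb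
  rcases X.eq_empty_or_nonempty with rfl | ⟨x, hx⟩
  · exact ⟨G, ⟨⊥, (bot_ok G).1, by simpa using (bot_ok G).2, fun W hW _ => h1 W hW⟩, 0, by simp⟩
  · exact ⟨G, ⟨⊥, (bot_ok G).1, by simpa using (bot_ok G).2, fun W hW _ => h1 W hW⟩, x,
      fun y hy => h2 x y (hX x hx y hy)⟩

/-- **Kissing configurations and spherical codes in the orbits of groups.** -/
theorem result : General ∧ Kissing ∧ (Products ∧ Comm ∧ Nilpotent) ∧ Lower := by
  refine ⟨?_, ⟨?_, ?_, ?_, ?_, ?_, ?_, ?_⟩, ⟨products, fun n G hG => ?_, fun n D C G hG h => ?_⟩, ?_⟩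
  · intro s δ hs0 hδ hs1 D hD C hC hA ε hε
    obtain ⟨η, hη, h⟩ := H58.BL.gen_exc H864.BL.t_net (s := s + 2 * δ) (by linarith) hs1 hD hC
      (fun d h1 h2 => adm (hA d h1 h2)) (show C < C + ε by linarith)
    refine ⟨η, hη, ?_⟩
    filter_upwards [h] with n hn X hX K hK
    refine cover hs1 (fun Y G z hG hY hYo => ?_) hX hK
    obtain ⟨U, hU, hUd, hW⟩ := hG
    exact hn G U hU hUd hW Y z hYo hY.1 hY.2
  · refine small (c := 0.36518) (by norm_num) (by norm_num) (fun d h1 h2 => ?_) (by norm_num)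
    interval_cases d <;> norm_num [H58.BL.Cd]
  · refine small (c := 0.37768) (by norm_num) (by norm_num) (fun d h1 h2 => ?_) (by norm_num)
    interval_cases d <;> norm_num [H58.BL.Cd]
  · refine small (c := 0.38798) (by norm_num) (by norm_num) (fun d h1 h2 => ?_) (by norm_num)
    interval_cases d <;> norm_num [H58.BL.Cd]
  · refine small (c := 0.39478) (by norm_num) (by norm_num) (fun d h1 h2 => ?_) (by norm_num)
    interval_cases d <;> norm_num [H58.BL.Cd]
  · refine small (c := 0.39568) (by norm_num) (by norm_num) (fun d h1 h2 => ?_) (by norm_num)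
    interval_cases d <;> norm_num [H58.BL.Cd]
  · obtain ⟨η, hη, h⟩ := H58.BL.gen_exc H864.BL.t_net (s := 0.52) (by norm_num) (by norm_num) le_rfl
      (show (0 : ℝ) ≤ 0.38908 by norm_num) H58.BL.adm_near
      (show (0.38908 : ℝ) < 0.3891 by norm_num)
    refine ⟨η, hη, ?_⟩
    filter_upwards [h] with n hn X hX K hK
    refine cover (by norm_num) (fun Y G z hG hY hYo => ?_) hX hK
    have e : (1 / 2 + 2 * 0.01 : ℝ) = 0.52 := by norm_num
    rw [e] at hY
    obtain ⟨U, hU, hUd, hW⟩ := hG
    exact hn G U hU hUd (fun V hV hVU => Or.inl (hW V hV hVU)) Y z hYo hY.1 hY.2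
  · filter_upwards [H58.BL.orbit_asym 0.39478 (show (0.39478 : ℝ) < 0.3948 by norm_num)]
      with n hn X hX K hK
    refine cover (by norm_num) (fun Y G z hG hY hYo => ?_) hX hK
    rw [mul_zero, add_zero] at hY
    exact hn G (fun V hV x0 => H58.BL.loc_class2 hG hV x0) Y z hYo hY.1 hY.2
  · exact ⟨⊥, (bot_ok G).1, by simpa using (bot_ok G).2, fun V hV _ => H58.AG.finrank_min hG hV⟩
  · exact ⟨⊥, (bot_ok G).1, by simpa using (bot_ok G).2,
      fun V hV _ => H58.BL.tame_class2 hG h V hV⟩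
  · filter_upwards [H58.AG.lower] with n hn
    obtain ⟨G, hG, X, x₀, h1, h2, h3, h4⟩ := hn
    refine ⟨X, ⟨G, hG, x₀, ?_⟩, ⟨h2, h3⟩, h4⟩
    ext x
    exact h1 x

end Pool.Agent.Results.MP_b5f63d_co.GroupOrbits
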