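import Pool.Agent.H723.Tree.KissingGrowth

/-!
# MP_b5f63d_co: kissing configurations are incompressible by tree-structured descriptions

A decomposable system (`Sys`) on the coordinates `1, …, n` has nodes and rules; a node `v` speaks
about a set `dom v` of coordinates, a rule `(v, u, w)` says that a point is allowed for `v` if it is
allowed for `u` and for `w`, where `dom v` is the disjoint union of `dom u` and `dom w`. Several
rules for `v` are alternatives. The leaves are arbitrary conditions on one coordinate. So the allowed
points are unions of products over arbitrary binary trees of coordinates, with shared parts:
context-free grammars, decomposable circuits (DNNFs), nondeterministic read-once branching programs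
and trellises are special cases, and systems with polynomially many rules can describe sets of
exponential size (codes with small trellises, products, concatenations, …).

`complexity X` is the least number of rules of such a system for `X`, in the best orthonormal basis.
We show that for kissing configurations there is nothing to gain: up to a polynomial factor the
complexity of a kissing configuration is its size. So the exponents `c₋`, `c₊` of the problem are the
exponents of the complexities of the largest configurations, and kissing configurations with
subexponential descriptions of this kind have subexponential size.

Proof. For a point `x` take a lowest node `v` of its derivation with `∑_{i ∈ dom v} x_i² > 1/2`. The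
rule `(v, u, w)` applied there cuts `x` in three parts (on `dom u`, on `dom w`, and the rest), each of
squared length at most `1/2`. If two points of the configuration use the same rule here, then one
may replace one part of the first by that of the second and stays in the configuration; so the parts
of the points which use this rule are equal or have distance at least `1`, and as their squared
lengths are at most `1/2`, their inner products are not positive. So there are at most `2 n`
possibilities for every part.
-/

set_option autoImplicit false

namespace Pool.Agent.Results.MP_b5f63d_co.Incompressible

open Filter
open Pool.Agent.H723.Tree

theorem result :
    -- all dimensions
    (∀ (n : ℕ) (X : Finset (EuclideanSpace ℝ (Fin n))), IsKissing X →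
      X.card ≤ 14 * n ^ 3 * (complexity X + 1) ∧ complexity X ≤ (n + 1) * X.card) ∧
    -- the exponents
    (∀ ε : ℝ, 0 < ε → ∀ᶠ n : ℕ in atTop, ∀ X : Finset (EuclideanSpace ℝ (Fin n)), IsKissing X →
      (X.card : ℝ) ≤ (2 : ℝ) ^ (ε * n) * (complexity X + 1) ∧
      (complexity X : ℝ) ≤ (2 : ℝ) ^ (ε * n) * X.card) :=
  ⟨fun _ X hX => ⟨card_le_complexity X hX, complexity_le X⟩, fun _ hε => growth hε⟩

end Pool.Agent.Results.MP_b5f63d_co.Incompressible
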