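import Pool.Agent.H58.ST.Kiss
import Pool.Agent.H58.SU.Asym
import Pool.Agent.H58.SU.Example
import Pool.Agent.H58.SU.Rates

/-!
# MP_b5f63d_co: symmetries of small displacement, and the kissing angle

Let `X` be a spherical code of `ℝⁿ` of angle `θ` (`θ = π / 3`: a kissing configuration), `T` an arbitrary
set of linear isometries and `F` the space of the vectors which are fixed by all `g ∈ T`. Suppose that
each `g ∈ T` has small displacement, `tr g ≥ (1 - κ) n` (so it is if the moved space has dimension at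
most `κ n / 2`), and is an exact or approximate symmetry of `X`: at most `|X| / n ^ s` points of `X` are
not mapped into `X`.

* Angles `π / 3 ≤ θ < π / 2`: `|X| ≤ 2 ^ (ε n) A(max (dim F) 4, θ)` for `κ`, `s` depending on `ε`. This is
  the growth of the codes in `F`, so that for each such set `T` the growth rate of the codes with the
  symmetries `T` is the one of all the codes of the fixed space.
* Angles `θ < π / 3`: let `cos β = 2 - 1 / cos θ`. Then `|X| ≤ 2 ^ (ε n) max (A(max (dim F) 4, θ), A(n, θ₁))`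
  for all `θ₁ < β`, and there are codes with at least `A(n - C, β)` points (exponentially many)
  with symmetries of rank at most `κ n`, the common fixed space of which has bounded dimension. So the
  kissing angle is exactly critical.
* The largest kissing configurations with symmetries of rank `o(n)` and `dim F = n - ⌊δ n⌋` have the growth
  rates `(1 - δ) c₊`, `(1 - δ) c₋`.
* Bounded rank (`BoundedRank`, `Reflections`, by helper104): if each `g ∈ T` moves at most `D` dimensions
  and maps `X` into `X`, then `|X| ≤ 2 ^ (ε n) A(dim F + 4, θ)` for all angles `θ < π / 2`, and there is an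
  explicit bound for reflections in all dimensions.

Idea of the proof. Let `H` be the quotients of the words of length `r` in (a choice of `n` elements
of) `T`. Each `x ∈ X` is near to `z + y`, `z` one of few points of one of few spaces of dimension at most
`ε n`, `y` nearly orthogonal to all the spaces moved by the `h ∈ H`. If `|z|² > 1 - cos θ`, then the
points `y` form a code of angle nearly `β` (`π / 2` if `θ ≥ π / 3`). If `|z|² < 1 - cos θ`, then the points
`g z` for the words `g` have a bounded number of clusters, words of the same cluster agree on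
the whole class of `z`, so the group generated by `T` has a bounded orbit on the class as a tuple;
elements of bounded order and small displacement have small rank. For the part on bounded ranks the
isometries are sorted by their action on the sum of the large eigenspaces of `z ↦ ∑ ⟨x, z⟩ x`.
-/

set_option autoImplicit false

open scoped InnerProductSpace
open Module Filter Pool.Agent.H818R2

namespace Pool.Agent.Results.MP_b5f63d_co.SmallSymmetries

/-- Euclidean space -/
abbrev E (n : ℕ) := EuclideanSpace ℝ (Fin n)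

/-- the linear isometries of Euclidean space -/
abbrev Isom (n : ℕ) := EuclideanSpace ℝ (Fin n) ≃ₗᵢ[ℝ] EuclideanSpace ℝ (Fin n)

/-- the trace of the isometry `g` -/
noncomputable def tr {n : ℕ} (g : Isom n) : ℝ := LinearMap.trace ℝ (E n) (g.toLinearEquiv : E n →ₗ[ℝ] E n)

/-- the space of the vectors which are fixed by all isometries of `T` -/
def fixedSpace {n : ℕ} (T : Set (Isom n)) : Submodule ℝ (E n) where
  carrier := {x | ∀ g ∈ T, g x = x}
  add_mem' := fun {x y} hx hy g hg => by rw [map_add, hx g hg, hy g hg]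
  zero_mem' := fun g _ => map_zero g
  smul_mem' := fun c x hx g hg => by rw [map_smul, hx g hg]

/-- the dimension of the fixed space -/
noncomputable def fixDim {n : ℕ} (T : Set (Isom n)) : ℕ := finrank ℝ (fixedSpace T)

open Classical in
/-- the number of the points of `X` which are not mapped into `X` by `g` -/
noncomputable def misses {n : ℕ} (X : Finset (E n)) (g : Isom n) : ℕ := (X.filter fun x => g x ∉ X).card

/-- the isometries of `T` have trace at least `(1 - κ) n` and map all but at most `|X| / n ^ s` points of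
`X` into `X` -/
def SmallSym {n : ℕ} (κ : ℝ) (s : ℕ) (X : Finset (E n)) (T : Set (Isom n)) : Prop :=
  ∀ g ∈ T, (1 - κ) * n ≤ tr g ∧ n ^ s * misses X g ≤ X.card

/-- angles from `π / 3` on: the growth is the one of the codes of the fixed space -/
def Upper : Prop :=
  ∀ θ : ℝ, Real.pi / 3 ≤ θ → θ < Real.pi / 2 → ∀ ε : ℝ, 0 < ε → ∃ κ : ℝ, 0 < κ ∧ ∃ s : ℕ,
    ∀ᶠ n : ℕ in atTop, ∀ (X : Finset (E n)) (T : Set (Isom n)), IsSphCode n θ X → SmallSym κ s X T →
      (X.card : ℝ) ≤ (2 : ℝ) ^ (ε * n) * sphMax (max (fixDim T) 4) θ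

/-- there are codes in the fixed space -/
def Lower : Prop :=
  ∀ (n : ℕ) (θ : ℝ), 0 < θ → θ < Real.pi → ∀ T : Set (Isom n), ∃ X : Finset (E n), IsSphCode n θ X ∧
    (∀ g ∈ T, ∀ x ∈ X, g x = x) ∧ X.card = sphMax (fixDim T) θ

/-- all angles: either the growth of the codes of the fixed space, or the one of codes of an angle
less than `β`, `cos β = 2 - 1 / cos θ` -/
def AllAngles : Prop :=
  ∀ θ θ₁ : ℝ, 0 < θ → θ < Real.pi / 2 → 0 < θ₁ → θ₁ < Real.pi / 2 →
    2 - 1 / Real.cos θ < Real.cos θ₁ → ∀ ε : ℝ, 0 < ε → ∃ κ : ℝ, 0 < κ ∧ ∃ s : ℕ,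
    ∀ᶠ n : ℕ in atTop, ∀ (X : Finset (E n)) (T : Set (Isom n)), IsSphCode n θ X → SmallSym κ s X T →
      (X.card : ℝ) ≤ (2 : ℝ) ^ (ε * n) * max (sphMax (max (fixDim T) 4) θ : ℝ) (sphMax n θ₁)

/-- angles less than `π / 3`: codes with symmetries of rank at most `κ n` and a common fixed space of
bounded dimension which are as large as codes of the angle `β`, in particular exponentially large -/
def Critical : Prop :=
  ∀ θ : ℝ, 0 < θ → θ < Real.pi / 3 → ∃ η : ℝ, 0 < η ∧ ∀ κ : ℝ, 0 < κ → ∃ C : ℕ,
    ∀ᶠ n : ℕ in atTop, ∃ (X : Finset (E n)) (T : Set (Isom n)), IsSphCode n θ X ∧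
      (∀ g ∈ T, (1 - κ) * n ≤ fixDim {g} ∧ (1 - κ) * n ≤ tr g ∧ ∀ x ∈ X, g x ∈ X) ∧
      fixDim T ≤ C ∧ sphMax (n - C) (Real.arccos (2 - 1 / Real.cos θ)) ≤ X.card ∧
      (2 : ℝ) ^ (η * n) ≤ X.card

/-- kissing configurations with a smaller common fixed space are exponentially smaller than the
largest ones -/
def Smaller : Prop :=
  ∃ κ : ℝ, 0 < κ ∧ ∃ s : ℕ, ∀ᶠ n : ℕ in atTop,
    ∀ (X : Finset (E n)) (T : Set (Isom n)), IsSphCode n (Real.pi / 3) X → SmallSym κ s X T →
      (fixDim T : ℝ) ≤ 13 / 25 * n → (X.card : ℝ) ≤ (2 : ℝ) ^ (-(n : ℝ) / 2000) * kissing n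

/-- the isometries of `T` fix spaces of codimension at most `D` and map `X` into `X` -/
def RankSym {n : ℕ} (D : ℕ) (X : Finset (E n)) (T : Set (Isom n)) : Prop :=
  ∀ g ∈ T, n ≤ fixDim {g} + D ∧ ∀ x ∈ X, g x ∈ X

/-- symmetries of bounded rank: the growth is the one of the codes of the fixed space, for all
angles -/
def BoundedRank : Prop :=
  ∀ θ : ℝ, 0 < θ → θ < Real.pi / 2 → ∀ (D : ℕ) (ε : ℝ), 0 < ε → ∀ᶠ n : ℕ in atTop,
    ∀ (X : Finset (E n)) (T : Set (Isom n)), IsSphCode n θ X → RankSym D X T →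
      (X.card : ℝ) ≤ (2 : ℝ) ^ (ε * n) * sphMax (fixDim T + 4) θ

/-- the largest size of a kissing configuration of `ℝⁿ` with symmetries of rank at most `D` the common
fixed space of which has dimension `m` -/
noncomputable def rankKiss (D n m : ℕ) : ℕ :=
  sSup {N | ∃ (X : Finset (E n)) (T : Set (Isom n)), IsSphCode n (Real.pi / 3) X ∧ RankSym D X T ∧
    fixDim T = m ∧ X.card = N}

/-- the growth rates of the kissing configurations with symmetries of rank at most `D n = o(n)` -/
def Rates : Prop :=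
  ∀ (D : ℕ → ℕ) (δ : ℝ), (∀ n, 1 ≤ D n) → Tendsto (fun n : ℕ => (D n : ℝ) / n) atTop (nhds 0) →
    0 ≤ δ → δ < 1 →
    limsup (fun n : ℕ => Real.logb 2 (rankKiss (D n) n (n - ⌊δ * n⌋₊)) / n) atTop =
      (1 - δ) * limsup (fun d : ℕ => Real.logb 2 (kissing d) / d) atTop ∧
    liminf (fun n : ℕ => Real.logb 2 (rankKiss (D n) n (n - ⌊δ * n⌋₊)) / n) atTop =
      (1 - δ) * liminf (fun d : ℕ => Real.logb 2 (kissing d) / d) atTop

/-- kissing configurations which are invariant under the reflections with unit normals `a ∈ R` -/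
def Reflections : Prop :=
  ∀ (n : ℕ) (R : Set (E n)) (X : Finset (E n)), IsSphCode n (Real.pi / 3) X →
    (∀ a ∈ R, ‖a‖ = 1 ∧ ∀ x ∈ X, x - (2 * ⟪a, x⟫_ℝ) • a ∈ X) →
    X.card ≤ ∑ k ∈ Finset.range 8, (finrank ℝ (Submodule.span ℝ R)).choose k *
      kissing (n - finrank ℝ (Submodule.span ℝ R) + k)

open Pool.Agent.H58.ST Pool.Agent.H161R2.KissSym

lemma misses_eq {n : ℕ} (X : Finset (E n)) (g : Isom n) :
    misses X g = Pool.Agent.H58.ST.misses X g := by
  unfold misses Pool.Agent.H58.ST.misses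
  congr!

lemma sym_eq {n : ℕ} {κ : ℝ} {s : ℕ} {X : Finset (E n)} {T : Set (Isom n)} (h : SmallSym κ s X T) :
    ∀ g ∈ T, (1 - κ) * n ≤ trc g ∧ n ^ s * Pool.Agent.H58.ST.misses X g ≤ X.card := by
  intro g hg
  have h1 := h g hg
  rw [misses_eq] at h1
  exact h1

theorem upper : Upper := by
  intro θ h1 h2 ε hε
  obtain ⟨κ, hκ, s, h⟩ := main_asym h1 h2 hε
  refine ⟨κ, hκ, s, ?_⟩
  filter_upwards [h] with n hn X T hX hT
  exact hn X hX T (sym_eq hT)

theorem lower : Lower := by
  intro n θ h0 h1 T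
  have hs : 0 < Real.sin (θ / 2) :=
    Real.sin_pos_of_pos_of_lt_pi (by linarith) (by linarith)
  obtain ⟨X, hX, hXT, hXc⟩ := exists_code_sub hs (fixedSpace T)
  exact ⟨X, hX, fun g hg x hx => hXT x hx g hg, hXc⟩

theorem allAngles : AllAngles := by
  intro θ θ₁ h1 h2 h3 h4 h5 ε hε
  have hcos0 : 0 < Real.cos θ := Real.cos_pos_of_mem_Ioo ⟨by linarith, h2⟩
  have h6 : 2 * Real.cos θ - 1 < Real.cos θ * Real.cos θ₁ := by
    have h7 := mul_lt_mul_of_pos_left h5 hcos0
    have h8 : Real.cos θ * (2 - 1 / Real.cos θ) = 2 * Real.cos θ - 1 := by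
      field_simp
    linarith
  obtain ⟨κ, hκ, s, h⟩ := Pool.Agent.H58.SU.main_all h1 h2 h3 h4 h6 hε
  refine ⟨κ, hκ, s, ?_⟩
  filter_upwards [h] with n hn X T hX hT
  exact hn X hX T (sym_eq hT)

theorem critical : Critical := by
  intro θ h0 h1
  obtain ⟨η, hη, h⟩ := Pool.Agent.H58.SU.example_code h0 h1
  refine ⟨η, hη, fun κ hκ => ?_⟩
  obtain ⟨C, hC⟩ := h κ hκ
  exact ⟨C, hC⟩

theorem smaller : Smaller := by
  obtain ⟨κ, hκ, s, h⟩ := kiss_half
  refine ⟨κ, hκ, s, ?_⟩
  filter_upwards [h] with n hn X T hX hT hF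
  exact hn X hX T (sym_eq hT) hF

theorem boundedRank : BoundedRank := by
  intro θ h1 h2 D ε hε
  filter_upwards [Pool.Agent.H104.Refl.asymp' h1 h2 D hε] with n hn X T hX hT
  exact hn T X hX hT

lemma rankKiss_eq (D n m : ℕ) : rankKiss D n m = Pool.Agent.H104.Refl.symKiss D n m := by
  unfold rankKiss Pool.Agent.H104.Refl.symKiss
  congr 1
  ext N
  constructor
  · rintro ⟨X, T, h1, h2, h3, h4⟩
    exact ⟨T, X, h1, h2, h3, h4⟩
  · rintro ⟨T, X, h1, h2, h3, h4⟩
    exact ⟨X, T, h1, h2, h3, h4⟩

theorem rates' : Rates := by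
  intro D δ hD hD0 h0 h1
  simp only [rankKiss_eq]
  exact Pool.Agent.H58.SU.sym_rates' hD hD0 h0 h1

theorem reflections : Reflections := fun _ _ _ hX hR => Pool.Agent.H104.Refl.kiss_le_refl hX hR

/-- **Symmetries of small displacement, and the kissing angle.** -/
theorem result : Upper ∧ Lower ∧ AllAngles ∧ Critical ∧ Smaller ∧ BoundedRank ∧ Rates ∧ Reflections :=
  ⟨upper, lower, allAngles, critical, smaller, boundedRank, rates', reflections⟩

end Pool.Agent.Results.MP_b5f63d_co.SmallSymmetries
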