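import Pool.Agent.H58.SG.Group
import Pool.Agent.H58.SG.Irred

/-!
# MP_b5f63d_co: a gap for the symmetries of kissing configurations of nearly maximal growth

Let `A(n, s)` be the largest number of unit vectors of `ℝⁿ` with mutual inner products at most `s`
(`s = 1 / 2`: the kissing number), `R(s) = limsup (1 / n) log_2 A(n, s)`, so that `R(1 / 2)` is `c₊`. For each
`0 < s < 1` there is an absolute `κ > 0` such that for every `ε > 0` there is `η > 0` with the following
properties for all large `n` and all codes `X` with at least `2 ^ ((R(s) - η) n)` points.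

* Let `g` be a linear isometry with `tr g ≥ (1 - κ) n`. Then at most `2 ^ (-η n) |X|` points `x` of `X`
  are mapped to another point of `X`, and if at least so many points of `X` are mapped into `X` at
  all, then `dim Fix g ≥ (1 - ε) n`.
* Let `T` be a set of such isometries which map all but at most `|X| / (4 n)` points of `X` into `X`, and
  `F` their common fixed space. Then `dim F ≥ (1 - ε) n`, and at least half of the points of `X` lie in
  `F`. If `g X = X` for all `g ∈ T`, then all but `2 ^ (-η n) |X|` points of `X` lie in `F`, and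
  `|X| ≤ (1 + 2 ^ (-η n)) A(dim F, s)`.
* Let `G` be the group of all symmetries of `X` and `F` the common fixed space of the symmetries of
  trace at least `(1 - κ) n`. Then `F` is `G`-invariant, and if `G` is transitive on `X`, then `X` lies in
  `F`: each symmetry which moves a point of `X` has trace less than `(1 - κ) n`.

Let now `X` be any code, `G` an irreducible finite group of isometries which map `X` into `X` and
`g ≠ 1` in `G`. Then `|X| ≤ (e K n / c) ^ c`, `c = (n - tr g) / (1 - s)`, `K = 2 + √(2 / (1 - s))` (if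
`c ≤ n`); kissing configurations with such an element of trace at least `(1 - 1 / 70) n` have at most
`2 ^ (-n / 200) τ(n)` points for large `n`.

Proof of the gap: a point of `X` which is moved to another point of `X` has a component of length at
least `√((1 - s) / 8)` in the sum of the eigenspaces of `2 - g - g⁻¹` with not too small eigenvalues, the
dimension of which is at most `O(κ n)`; in codes of nearly maximal growth there are few such points
(library). Irreducible groups: the orbit of a unit vector of `(g - 1) ℝⁿ` is a tight frame (Schur's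
lemma), and a greedy choice gives a basis of it such that a point of `X` is in the mean orthogonal to
all but `c` vectors of the basis.
-/

set_option autoImplicit false

open scoped InnerProductSpace
open Module Filter

namespace Pool.Agent.Results.MP_b5f63d_co.SymmetryGap

/-- Euclidean space -/
abbrev E (n : ℕ) := EuclideanSpace ℝ (Fin n)

/-- the linear isometries of Euclidean space -/
abbrev Isom (n : ℕ) := EuclideanSpace ℝ (Fin n) ≃ₗᵢ[ℝ] EuclideanSpace ℝ (Fin n)

/-- `X` is a set of unit vectors of `ℝⁿ` with mutual inner products at most `s`; for `s = 1 / 2`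
these are the kissing configurations -/
def IsCode (n : ℕ) (s : ℝ) (X : Finset (E n)) : Prop :=
  (∀ x ∈ X, ‖x‖ = 1) ∧ ∀ x ∈ X, ∀ y ∈ X, x ≠ y → inner ℝ x y ≤ s

/-- the largest size of such a set; `A n (1 / 2)` is the kissing number of `ℝⁿ` -/
noncomputable def A (n : ℕ) (s : ℝ) : ℕ := sSup {k | ∃ X : Finset (E n), IsCode n s X ∧ X.card = k}

/-- `limsup (1 / n) log_2 A(n, s)`; `rate (1 / 2)` is the constant `c₊` of the problem -/
noncomputable def rate (s : ℝ) : ℝ := limsup (fun n : ℕ => Real.logb 2 (A n s) / n) atTop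

/-- the trace of the isometry `g` -/
noncomputable def tr {n : ℕ} (g : Isom n) : ℝ := LinearMap.trace ℝ (E n) (g.toLinearEquiv : E n →ₗ[ℝ] E n)

/-- the space of the vectors which are fixed by all isometries of `T` -/
def fixedSpace {n : ℕ} (T : Set (Isom n)) : Submodule ℝ (E n) where
  carrier := {x | ∀ g ∈ T, g x = x}
  add_mem' := fun {x y} hx hy g hg => by rw [map_add, hx g hg, hy g hg]
  zero_mem' := fun g _ => map_zero g
  smul_mem' := fun c x hx g hg => by rw [map_smul, hx g hg]

/-- the dimension of the fixed space -/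
noncomputable def fixDim {n : ℕ} (T : Set (Isom n)) : ℕ := finrank ℝ (fixedSpace T)

open Classical in
/-- the number of the points of `X` with the property `P` -/
noncomputable def number {n : ℕ} (X : Finset (E n)) (P : E n → Prop) : ℕ := (X.filter P).card

/-- the symmetries of `X` -/
def symmetries {n : ℕ} (X : Finset (E n)) : Set (Isom n) := {g | ∀ x ∈ X, g x ∈ X}

/-- the symmetries of `X` of trace at least `(1 - κ) n` -/
def smallSymmetries {n : ℕ} (κ : ℝ) (X : Finset (E n)) : Set (Isom n) :=
  {g | g ∈ symmetries X ∧ (1 - κ) * n ≤ tr g}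

/-- the overlap of `X` and its image by an isometry of trace at least `(1 - κ) n` -/
def Overlap {n : ℕ} (κ ε η : ℝ) (X : Finset (E n)) : Prop :=
  ∀ g : Isom n, (1 - κ) * n ≤ tr g →
    (number X (fun x => g x ∈ X ∧ g x ≠ x) : ℝ) ≤ (2 : ℝ) ^ (-η * n) * X.card ∧
    ((2 : ℝ) ^ (-η * n) * X.card < number X (fun x => g x ∈ X) → (1 - ε) * n ≤ fixDim {g})

/-- the common fixed space of approximate symmetries of trace at least `(1 - κ) n` -/
def Approximate {n : ℕ} (κ ε : ℝ) (X : Finset (E n)) : Prop :=
  ∀ T : Set (Isom n), (∀ g ∈ T, (1 - κ) * n ≤ tr g ∧ 4 * n * number X (fun x => g x ∉ X) ≤ X.card) →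
    (1 - ε) * n ≤ fixDim T ∧ X.card ≤ 2 * number X (fun x => x ∈ fixedSpace T)

/-- the common fixed space of symmetries of trace at least `(1 - κ) n` -/
def Exact {n : ℕ} (s κ ε η : ℝ) (X : Finset (E n)) : Prop :=
  ∀ T : Set (Isom n), (∀ g ∈ T, (1 - κ) * n ≤ tr g ∧ ∀ x ∈ X, g x ∈ X) →
    (1 - ε) * n ≤ fixDim T ∧
    (number X (fun x => x ∉ fixedSpace T) : ℝ) ≤ (2 : ℝ) ^ (-η * n) * X.card ∧
    (X.card : ℝ) ≤ (1 + (2 : ℝ) ^ (-η * n)) * A (fixDim T) s

/-- the fixed space of the symmetries of trace at least `(1 - κ) n` is invariant under all symmetries,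
and if the group of symmetries is transitive on `X`, these symmetries fix all points of `X` -/
def WholeGroup {n : ℕ} (κ : ℝ) (X : Finset (E n)) : Prop :=
  (∀ g ∈ symmetries X, ∀ x ∈ fixedSpace (smallSymmetries κ X), g x ∈ fixedSpace (smallSymmetries κ X)) ∧
  ((∀ x ∈ X, ∀ y ∈ X, ∃ g ∈ symmetries X, g x = y) → ∀ g ∈ smallSymmetries κ X, ∀ x ∈ X, g x = x)

/-- the gap -/
def Gap : Prop :=
  ∀ s : ℝ, 0 < s → s < 1 → ∃ κ : ℝ, 0 < κ ∧ ∀ ε : ℝ, 0 < ε → ε < 1 → ∃ η : ℝ, 0 < η ∧
    -- all codes of nearly maximal growth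
    (∀ᶠ n : ℕ in atTop, ∀ X : Finset (E n), IsCode n s X → (2 : ℝ) ^ ((rate s - η) * n) ≤ X.card →
      Overlap κ ε η X ∧ Approximate κ ε X ∧ Exact s κ ε η X ∧ WholeGroup κ X) ∧
    -- they exist in infinitely many dimensions
    (∃ᶠ n : ℕ in atTop, ∃ X : Finset (E n), IsCode n s X ∧ (2 : ℝ) ^ ((rate s - η) * n) ≤ X.card)

/-- `G` is a finite group of isometries without invariant subspaces the elements of which map `X`
into `X` -/
def IrreducibleFor {n : ℕ} (G : Subgroup (Isom n)) (X : Finset (E n)) : Prop :=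
  Finite G ∧ (∀ W : Submodule ℝ (E n), (∀ h ∈ G, ∀ x ∈ W, h x ∈ W) → W = ⊥ ∨ W = ⊤) ∧
    ∀ h ∈ G, ∀ x ∈ X, h x ∈ X

/-- the bound for irreducible finite groups -/
def Groups : Prop :=
  ∀ (n : ℕ) (s : ℝ), -1 ≤ s → s < 1 → ∀ (X : Finset (E n)) (G : Subgroup (Isom n)), IsCode n s X →
    IrreducibleFor G X → ∀ g ∈ G, g ≠ 1 → ∀ c : ℝ, (n - tr g) / (1 - s) ≤ c → c ≤ n →
    (X.card : ℝ) ≤ (Real.exp 1 * (2 + √(2 / (1 - s))) * n / c) ^ c

/-- kissing configurations with an irreducible finite group, one element of which has a large trace,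
are exponentially smaller than the largest ones -/
def KissingGroups : Prop :=
  ∀ᶠ n : ℕ in atTop, ∀ (X : Finset (E n)) (G : Subgroup (Isom n)), IsCode n (1 / 2) X →
    IrreducibleFor G X → ∀ g ∈ G, g ≠ 1 → (1 - 1 / 70 : ℝ) * n ≤ tr g →
    (X.card : ℝ) ≤ (2 : ℝ) ^ (-(n : ℝ) / 200) * A n (1 / 2)

open Pool.Agent.H58.ST Pool.Agent.H58.SG

theorem gap' : Gap := by
  intro s h0 h1
  obtain ⟨κ, hκ, H⟩ := gap h0 h1
  refine ⟨κ, hκ, fun ε hε0 hε1 => ?_⟩
  obtain ⟨η, hη, Hη⟩ := H ε hε0 hε1
  refine ⟨η, hη, ?_, ?_⟩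
  · filter_upwards [Hη, eventually_gt_atTop 0] with n hn hn0 X hX hXc
    obtain ⟨a1, a2, a3⟩ := hn X hX hXc
    refine ⟨a1, a2, a3, fun g hg x hx => fix_invariant (κ := κ) hg hx, fun htr => ?_⟩
    exact fixed_of_transitive hn0 hη (lt_of_lt_of_le (by positivity) hXc) (a3 _ fun g hg => ⟨hg.2, hg.1⟩).2.1 htr
  · rw [Filter.frequently_atTop]
    intro N
    obtain ⟨n, hn, X, hX, hXc⟩ := Pool.Agent.E8helper70.Sph.exists_near h0.le h1 hη N
    exact ⟨n, hn, X, hX, hXc⟩

theorem groups : Groups := by
  intro n s h0 h1 X G hX hG g hg hg1 c hc hcn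
  exact Irred.irreducible' h0 h1 hG.1 hG.2.1 hg hg1 hc hcn hX.1 hX.2 hG.2.2

lemma kissing_eq (n : ℕ) : Pool.Agent.H818R2.kissing n = A n (1 / 2) := by
  have h : ∀ X : Finset (E n), Pool.Agent.H818R2.IsSphCode n (Real.pi / 3) X ↔ IsCode n (1 / 2) X := by
    intro X
    unfold Pool.Agent.H818R2.IsSphCode IsCode
    rw [Real.cos_pi_div_three]
  unfold Pool.Agent.H818R2.kissing Pool.Agent.H818R2.sphMax A
  simp only [h]

theorem kissingGroups : KissingGroups := by
  filter_upwards [Irred.kissing_bound] with n hn X G hX hG g hg hg1 htr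
  rw [← kissing_eq]
  refine hn G hG.1 hG.2.1 g hg hg1 htr X ⟨hX.1, ?_⟩ hG.2.2
  rw [Real.cos_pi_div_three]
  exact hX.2

/-- **A gap for the symmetries of codes of nearly maximal growth.** -/
theorem result : Gap ∧ Groups ∧ KissingGroups := ⟨gap', groups, kissingGroups⟩

end Pool.Agent.Results.MP_b5f63d_co.SymmetryGap
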